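import Mathlib
import Pool.Agent.Q42.UIC.All
import Pool.Agent.Q42.UIC.Fin2
import Pool.Agent.Q42.UIC.Def2
import Pool.Agent.Q42.UIC.sqrt_coef
import Pool.Agent.Q42.UIC.vn
import Pool.Agent.Q42.UIC.symb
import Pool.Agent.Q42.UIC.col
import Pool.Agent.Q42.UIC.fwd_op
import Pool.Agent.Q42.UIC.bwd_op
import Pool.Agent.Q42.UIC.restrict

/-!
# MP_cd27db_pr, Q1: the central limit theorem under the two sided square root condition

Full positive answer. `Q` is a Markov kernel on `S` with invariant law `ν`, `mop ν Q hν` is the
Markov operator `T u = ∫ u dQ(x, ·)` on `L²(ν)`, `sqrtOp T = 1 - ∑_{n ≥ 1} δ n T ^ n` with the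
coefficients `δ` of `√(1 - x) = 1 - ∑ δ n x ^ n`.

If `f` is in the range of `√(1 - T)` and of `√(1 - T*)` and the chain is ergodic, then
`E S_n ^ 2 / n → σ²` and `S_n / √n` converges in law to the centred normal law with variance `σ²`.

Proof. The functional `J(G, H) = E[Z² G(ξ_0) H(ξ_n)] + E κ(G) + E κ(H)`, `Z = S_n / √n`,
`κ(g) = A (2 / g + g - 3)`, is minimised over weights `G, H : S → (0, 1]`. Replacing the weights at the
middle state by their conditional harmonic means one sees that the infimum of `J` does not decrease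
along dyadic blocks, up to summable errors given by the conditional means of the block sums. This
gives the uniform integrability of `S_n ^ 2 / n`. A second functional of the same kind gives the
convergence in `L¹` of the conditional variances. The central limit theorem follows by blocking.
-/

set_option autoImplicit false

open MeasureTheory ProbabilityTheory Pool.Agent.Q42.UIC

namespace Pool.Agent.Results.MP_cd27db_pr.TwoSidedSquareRoot

/-- **CLT under the two sided square root condition.** `ξ` is a stationary Markov chain indexed by `ℤ`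
with kernel `Q` and law `ν`; the only `u ∈ L²(ν)` with `T u = u` are constants; the class of `f` is in
the range of `√(1 - T)` and in the range of `√(1 - T*)`. Then, for some `v ≥ 0`, with
`S_n = ∑_{i = 1}^n f(ξ_i)`, `E S_n ^ 2 / n → v` and `S_n / √n` converges in distribution to
`N(0, v)`. -/
theorem result (S : Type) [MeasurableSpace S] (Q : Kernel S S) [IsMarkovKernel Q]
    (ν : Measure S) [IsProbabilityMeasure ν] (hν : ν.bind Q = ν) (herg : IsErgodicOp ν (mop ν Q hν))
    (f : S → ℝ) (hf : Measurable f) (hf2 : MemLp f 2 ν)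
    (hr : hf2.toLp f ∈ Set.range (sqrtOp (mop ν Q hν)))
    (hr' : hf2.toLp f ∈ Set.range (sqrtOp (ContinuousLinearMap.adjoint (mop ν Q hν))))
    (Ω : Type) [MeasurableSpace Ω] (μ : Measure Ω) [IsProbabilityMeasure μ]
    (ξ : ℤ → Ω → S) (hξ : IsStatMarkov Q ν μ ξ) :
    ∃ v : NNReal, HasCLT μ (psum f ξ) v :=
  final2 mem_blk a_lev_eq_blk a_sq_conc a_ui a_var_tendsto a_clt_core proc_law a_var_all
    (col sqrt_coef vn symb) fwd_op bwd_op restrict S Q ν hν herg f hf hf2 hr hr' Ω μ ξ hξ.1 hξ.2.1
    hξ.2.2

end Pool.Agent.Results.MP_cd27db_pr.TwoSidedSquareRoot
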